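import Mathlib
import Pool.Agent.R412.RT.Z
set_option autoImplicit false

/-!
# The extension conjecture for the paraboloid in `ℝ³`, tested on products

`ext U f ξ = ∫_U e^{-i Φ(x)·ξ} f(x) dx`, `Φ(x) = (x_1, x_2, x_1² + x_2²)`. By duality the
conjecture says that for every `q > 3`, with `r = (q/2)' = q/(q-2) < 3`,

`∫ |ext U f|² W ≤ C ‖W‖_{L^r(ℝ³)} ‖f‖_q²` for all weights `W ≥ 0`.

* A. (endpoint) For ALL bases `v` of `ℝ³`, all measurable `A_i ⊆ ℝ`, `B = {ξ : ⟪v_i, ξ⟫ ∈ A_i}`: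
  `∫_B |ext U f|² ≤ C |B|^{1/3} ‖f‖_3²`, with an absolute constant, for every measurable
  `U ⊆ ℝ²`, bounded or not.
* B. (endpoint) The same for every weight `W` with `W(ξ) ≤ w_i(⟪v_i, ξ⟫)`, `i = 1, 2, 3`.
* C. (endpoint) The same for the product weights `∏ w_i(⟪v_i, ξ⟫)`, with Lorentz norms.
* D. For all `1 ≤ r < 3`, that is all `q > 3`: product weights in `L^r` in all orthonormal frames.
* E. For `3 < q < 4`: products of an ARBITRARY planar set in the plane of `e_1` and the vertical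
  direction and an arbitrary linear set, in the direction `e_2 + a e_3`.
* F. For all `1 ≤ r < 3`: weights `u(ξ_1, ξ_3) w(ξ_2)` with arbitrary `u ∈ L^r(ℝ²)`.
-/

namespace Pool.Agent.Results.MP_5ab805_an.ProductTests

open MeasureTheory Set Metric Complex
open scoped ENNReal NNReal RealInnerProductSpace

abbrev E (n : ℕ) := EuclideanSpace ℝ (Fin n)

/-- the paraboloid `x ↦ (x_1, x_2, x_1^2 + x_2^2)` -/
noncomputable def Phi (x : E 2) : E 3 := !₂[x 0, x 1, x 0 ^ 2 + x 1 ^ 2]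

/-- the Fourier extension operator of the paraboloid over `U` -/
noncomputable def ext (U : Set (E 2)) (f : E 2 → ℂ) (ξ : E 3) : ℂ :=
  ∫ x in U, Complex.exp (-((⟪Phi x, ξ⟫ : ℝ) : ℂ) * I) * f x

/-- the volume of the unit cell of the frame `v` -/
noncomputable def cell (v : Fin 3 → E 3) : ℝ≥0∞ :=
  volume {ξ : E 3 | ∀ i, ⟪v i, ξ⟫ ∈ Ioc (0 : ℝ) 1}

/-- the Lorentz norm `L^(3,1)(ℝ)`, `∫_0^∞ |{u > t}|^(1/3) dt` -/
noncomputable def lorentz (u : ℝ → ℝ≥0∞) : ℝ≥0∞ :=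
  ∫⁻ t in Ioi (0 : ℝ), volume {a | ENNReal.ofReal t < u a} ^ (1 / 3 : ℝ)

/-- the vertical unit vector -/
noncomputable def vertical : E 3 := EuclideanSpace.single (2 : Fin 3) (1 : ℝ)

/-- the product of a planar set (in the plane of `e 0`, `e 2`) and a linear set (in the direction
`e 1 + a • e 2`) -/
def planarProduct (e : OrthonormalBasis (Fin 3) ℝ (E 3)) (a : ℝ) (A : Set (ℝ × ℝ))
    (A₁ : Set ℝ) : Set (E 3) :=
  {ξ | (⟪e 0, ξ⟫, ⟪e 2, ξ⟫) ∈ A ∧ ⟪e 1, ξ⟫ + a * ⟪e 2, ξ⟫ ∈ A₁}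

/-- A. The endpoint estimate for product sets in all linear frames. -/
def EndpointSets : Prop :=
  ∃ C : ℝ≥0, ∀ (U : Set (E 2)) (f : E 2 → ℂ) (v : Fin 3 → E 3) (A : Fin 3 → Set ℝ),
    MeasurableSet U → IntegrableOn f U → LinearIndependent ℝ v → (∀ i, MeasurableSet (A i)) →
    ∫⁻ ξ in {ξ | ∀ i, ⟪v i, ξ⟫ ∈ A i}, ‖ext U f ξ‖ₑ ^ 2 ≤
      C * volume {ξ : E 3 | ∀ i, ⟪v i, ξ⟫ ∈ A i} ^ (1 / 3 : ℝ) *
        eLpNorm f 3 (volume.restrict U) ^ 2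

/-- B. The endpoint estimate for weights with majorants of one linear coordinate. -/
def EndpointMajorants : Prop :=
  ∃ C : ℝ≥0, ∀ (U : Set (E 2)) (f : E 2 → ℂ) (v : Fin 3 → E 3) (w : Fin 3 → ℝ → ℝ≥0∞)
    (W : E 3 → ℝ≥0∞), MeasurableSet U → IntegrableOn f U → LinearIndependent ℝ v →
    (∀ i, Measurable (w i)) → (∀ ξ i, W ξ ≤ w i ⟪v i, ξ⟫) →
    ∫⁻ ξ, W ξ * ‖ext U f ξ‖ₑ ^ 2 ≤
      C * (cell v * ∏ i, ∫⁻ t, w i t) ^ (1 / 3 : ℝ) * eLpNorm f 3 (volume.restrict U) ^ 2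

/-- C. The endpoint estimate for product weights in all linear frames. -/
def EndpointProducts : Prop :=
  ∃ C : ℝ≥0, ∀ (U : Set (E 2)) (f : E 2 → ℂ) (v : Fin 3 → E 3) (w : Fin 3 → ℝ → ℝ≥0∞),
    MeasurableSet U → IntegrableOn f U → LinearIndependent ℝ v → (∀ i, Measurable (w i)) →
    ∫⁻ ξ, (∏ i, w i ⟪v i, ξ⟫) * ‖ext U f ξ‖ₑ ^ 2 ≤
      C * cell v ^ (1 / 3 : ℝ) * (∏ i, lorentz (w i)) * eLpNorm f 3 (volume.restrict U) ^ 2

/-- D. All `r < 3`: product weights in all orthonormal frames. -/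
def ProductWeights : Prop :=
  ∀ r : ℝ, 1 ≤ r → r < 3 → ∃ C : ℝ≥0, ∀ (U : Set (E 2)) (f : E 2 → ℂ)
    (e : OrthonormalBasis (Fin 3) ℝ (E 3)) (w : Fin 3 → ℝ → ℝ≥0∞),
    MeasurableSet U → U ⊆ ball 0 (1 / 2) → IntegrableOn f U → (∀ i, Measurable (w i)) →
    ∫⁻ ξ, (∏ i, w i ⟪e i, ξ⟫) * ‖ext U f ξ‖ₑ ^ 2 ≤
      C * (∏ i, (∫⁻ t, w i t ^ r) ^ (1 / r)) * eLpNorm f 3 (volume.restrict U) ^ 2

/-- E. Products of a planar set and a linear set. -/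
def PlanarSets : Prop :=
  ∀ q : ℝ, 3 < q → q < 4 → ∃ C : ℝ≥0, ∀ (U : Set (E 2)) (f : E 2 → ℂ)
    (e : OrthonormalBasis (Fin 3) ℝ (E 3)) (a : ℝ) (A : Set (ℝ × ℝ)) (A₁ : Set ℝ),
    MeasurableSet U → U ⊆ ball 0 (1 / 2) → MemLp f ∞ (volume.restrict U) → e 2 = vertical →
    MeasurableSet A → MeasurableSet A₁ →
    ∫⁻ ξ in planarProduct e a A A₁, ‖ext U f ξ‖ₑ ^ 2 ≤
      C * volume (planarProduct e a A A₁) ^ (1 - 2 / q) * eLpNorm f ∞ (volume.restrict U) ^ 2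

/-- F. Products of a planar weight and a linear weight. -/
def PlanarWeights : Prop :=
  ∀ r : ℝ, 1 ≤ r → r < 3 → ∃ C : ℝ≥0, ∀ (U : Set (E 2)) (f : E 2 → ℂ)
    (e : OrthonormalBasis (Fin 3) ℝ (E 3)) (u : ℝ × ℝ → ℝ≥0∞) (w : ℝ → ℝ≥0∞),
    MeasurableSet U → U ⊆ ball 0 (1 / 2) → MemLp f ∞ (volume.restrict U) → e 2 = vertical →
    Measurable u → Measurable w →
    ∫⁻ ξ, u (⟪e 0, ξ⟫, ⟪e 2, ξ⟫) * w ⟪e 1, ξ⟫ * ‖ext U f ξ‖ₑ ^ 2 ≤
      C * (∫⁻ p, u p ^ r) ^ (1 / r) * (∫⁻ t, w t ^ r) ^ (1 / r) *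
        eLpNorm f ∞ (volume.restrict U) ^ 2

/-- **Theorem.** The extension conjecture for the paraboloid in `ℝ³` tested on products. -/
theorem result : EndpointSets ∧ EndpointMajorants ∧ EndpointProducts ∧ ProductWeights ∧
    PlanarSets ∧ PlanarWeights := by
  have hK : Pool.Agent.R412.RZ.K0 * Pool.Agent.R412.RT.Cn 2 ≠ ∞ :=
    ENNReal.mul_ne_top Pool.Agent.R412.RZ.K0_ne (Pool.Agent.R412.RZ.Cn_ne_top 2)
  refine ⟨⟨(Pool.Agent.R412.RZ.K0 * Pool.Agent.R412.RT.Cn 2).toNNReal, ?_⟩,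
    ⟨(Pool.Agent.R412.RZ.K0 * Pool.Agent.R412.RT.Cn 2).toNNReal, ?_⟩,
    ⟨(Pool.Agent.R412.RZ.K0 * Pool.Agent.R412.RT.Cn 2).toNNReal, ?_⟩, ?_, ?_, ?_⟩
  · rw [ENNReal.coe_toNNReal hK]
    intro U f v A hU hf hv hA
    exact Pool.Agent.R412.RZ.partA U hU f hf v hv A hA
  · rw [ENNReal.coe_toNNReal hK]
    intro U f v w W hU hf hv hw hW
    exact Pool.Agent.R412.RZ.partB U hU f hf v hv w W hw hW
  · rw [ENNReal.coe_toNNReal hK]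
    intro U f v w hU hf hv hw
    exact Pool.Agent.R412.RZ.partC U hU f hf v hv w hw
  · intro r hr hr3
    refine ⟨(Pool.Agent.R412.RZ.K0 * Pool.Agent.R412.RS.Cb 2 (1 / 2) r).toNNReal, ?_⟩
    rw [ENNReal.coe_toNNReal (ENNReal.mul_ne_top Pool.Agent.R412.RZ.K0_ne
      (Pool.Agent.R412.RS.Cb_ne_top 2 (1 / 2) r))]
    intro U f e w hU hUb hf hw
    exact Pool.Agent.R412.RZ.partD r hr hr3 U hU hUb f hf e w hw
  · intro q hq3 hq4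
    obtain ⟨C, hC⟩ := Pool.Agent.R412.RZ.partE q hq3 hq4
    exact ⟨C, fun U f e a A A₁ hU hUb hf he hA hA1 => hC U f e a A A₁ hU hUb hf he hA hA1⟩
  · intro r hr hr3
    obtain ⟨C, hC⟩ := Pool.Agent.R412.RZ.partF r hr hr3
    exact ⟨C, fun U f e u w hU hUb hf he hu hw => hC U f e u w hU hUb hf he hu hw⟩

end Pool.Agent.Results.MP_5ab805_an.ProductTests
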