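import Mathlib
import Pool.Agent.R246.RndJ
set_option autoImplicit false

/-!
# Fourier extension for the paraboloid in `ℝ^3`: random sums of functions living on few strips

A function is of class `Strips m` if it has the form
`ψ(x₁, x₂) = ∑_{i < m} 1_{(a_i, b_i]}(x₂) g_i(x₁)`
with disjoint subintervals of `[-1,1]` and arbitrary measurable `g_i` on `[-1,1]`. Examples with
`m = 2` are `h_I(x₂) f_I(x₁)` with a Haar function `h_I` and an arbitrary `f_I`.

In the full range `q > 3` of the extension conjecture, every finite family of such functions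
(which may overlap arbitrarily) satisfies the conjectured inequality on average over the signs:
`∑_ε ‖E(∑ ε_k ψ_k)‖_q^q ≤ C m^{q/2} ∑_ε ‖∑ ε_k ψ_k‖_q^q`.
-/

namespace Pool.Agent.Results.MP_5ab805_an.RandomStrips

open MeasureTheory Set Complex
open scoped ENNReal NNReal

/-- The Fourier extension operator of the problem,
`E f (ξ) = ∫ e^{-i Φ(x)·ξ} f(x) dx` with `Φ(x) = (x₁, x₂, x₁² + x₂²)`; a point of `ℝ³` is written
as `ξ = ((ξ₁, ξ₂), ξ₃)`. -/
noncomputable def ext (f : (Fin 2 → ℝ) → ℂ) (ξ : (Fin 2 → ℝ) × ℝ) : ℂ :=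
  ∫ x, cexp (-(I * ((x 0 * ξ.1 0 + x 1 * ξ.1 1 + (x 0 ^ 2 + x 1 ^ 2) * ξ.2 : ℝ) : ℂ))) * f x

/-- `ψ(x₁, x₂) = ∑_{i < m} 1_{(a_i, b_i]}(x₂) g_i(x₁)` with pairwise disjoint subintervals
`(a_i, b_i]` of `[-1,1]` and measurable functions `g_i` vanishing outside `[-1,1]`. -/
def Strips (m : ℕ) (ψ : (Fin 2 → ℝ) → ℂ) : Prop :=
  ∃ (a b : Fin m → ℝ) (g : Fin m → ℝ → ℂ),
    (∀ i, -1 ≤ a i ∧ a i ≤ b i ∧ b i ≤ 1) ∧
    (∀ i j, i ≠ j → Disjoint (Ioc (a i) (b i)) (Ioc (a j) (b j))) ∧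
    (∀ i, Measurable (g i)) ∧ (∀ i v, 1 < |v| → g i v = 0) ∧
    ∀ x, ψ x = ∑ i, (Ioc (a i) (b i)).indicator (fun _ => g i (x 0)) (x 1)

/-- The signed sum `∑_k ε_k ψ_k`, where `ε_k = 1` if `ε k = true` and `ε_k = -1` otherwise. -/
def rsum {N : ℕ} (ψ : Fin N → (Fin 2 → ℝ) → ℂ) (ε : Fin N → Bool) (x : Fin 2 → ℝ) : ℂ :=
  ∑ k, (if ε k then 1 else -1) * ψ k x

open Pool.Agent.R246.Rnd

lemma strips_boxes {m : ℕ} {ψ : (Fin 2 → ℝ) → ℂ} (h : Strips m ψ) : Boxes 1 m ψ := by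
  obtain ⟨a, b, g, hab, hdj, hg, -, hψ⟩ := h
  have hbox : ∀ (i : Fin m) (u : Fin 1 → ℝ), u ∈ box (fun _ : Fin 1 => a i) (fun _ => b i) ↔
      u 0 ∈ Ioc (a i) (b i) := by
    intro i u
    unfold box
    simp only [mem_ofPred_eq, mem_Ioc]
    constructor
    · intro h
      exact h 0
    · intro h j
      rw [Subsingleton.elim j 0]
      exact h
  refine ⟨fun i _ => a i, fun i _ => b i, g, fun i _ => hab i, ?_, hg, ?_⟩
  · intro i j hij
    rw [Set.disjoint_left]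
    intro u hu hu'
    rw [hbox] at hu hu'
    exact (Set.disjoint_left.1 (hdj i j hij)) hu hu'
  · intro x
    rw [hψ]
    apply Finset.sum_congr rfl
    intro i _
    have hx : (Fin.tail x : Fin 1 → ℝ) 0 = x 1 := rfl
    by_cases h : x 1 ∈ Ioc (a i) (b i)
    · rw [indicator_of_mem h, indicator_of_mem]
      rw [hbox, hx]
      exact h
    · rw [indicator_of_notMem h, indicator_of_notMem]
      rw [hbox, hx]
      exact h

lemma strips_zero {m : ℕ} {ψ : (Fin 2 → ℝ) → ℂ} (h : Strips m ψ) (x : Fin 2 → ℝ)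
    (hx : x ∉ Icc (fun _ : Fin 2 => (-1 : ℝ)) (fun _ => 1)) : ψ x = 0 := by
  obtain ⟨a, b, g, hab, hdj, hg, hg0, hψ⟩ := h
  rw [hψ]
  apply Finset.sum_eq_zero
  intro i _
  by_cases h1 : x 1 ∈ Ioc (a i) (b i)
  · rw [indicator_of_mem h1]
    apply hg0
    by_contra h0
    push Not at h0
    apply hx
    have h2 := abs_le.1 h0
    constructor
    · intro j
      fin_cases j
      · exact h2.1
      · change -1 ≤ x 1
        linarith [h1.1, (hab i).1]
    · intro j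
      fin_cases j
      · exact h2.2
      · change x 1 ≤ 1
        linarith [h1.2, (hab i).2.2]
  · rw [indicator_of_notMem h1]

lemma strips_meas {m : ℕ} {ψ : (Fin 2 → ℝ) → ℂ} (h : Strips m ψ) : Measurable ψ := by
  obtain ⟨a, b, g, hab, hdj, hg, hg0, hψ⟩ := h
  have e : ψ = fun x => ∑ i, ((fun x : Fin 2 → ℝ => x 1) ⁻¹' (Ioc (a i) (b i))).indicator
      (fun x : Fin 2 → ℝ => g i (x 0)) x := by
    funext x
    rw [hψ]
    apply Finset.sum_congr rfl
    intro i _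
    by_cases h1 : x 1 ∈ Ioc (a i) (b i)
    · rw [indicator_of_mem h1, indicator_of_mem (by exact h1)]
    · rw [indicator_of_notMem h1, indicator_of_notMem (by exact h1)]
  rw [e]
  apply Finset.measurable_sum
  intro i _
  exact ((hg i).comp (measurable_pi_apply 0)).indicator (measurable_pi_apply 1 measurableSet_Ioc)

lemma ext_measurable {f : (Fin 2 → ℝ) → ℂ} (hf : Measurable f) :
    Measurable (Pool.Agent.H728R3.SR.ext f) := by
  unfold Pool.Agent.H728R3.SR.ext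
  have h1 : Measurable fun p : ((Fin 2 → ℝ) × ℝ) × (Fin 2 → ℝ) =>
      cexp (2 * Real.pi * I * ((∑ j, p.2 j * p.1.1 j + (∑ j, p.2 j ^ 2) * p.1.2 : ℝ) : ℂ)) := by
    apply Continuous.measurable
    fun_prop
  have h : Measurable fun p : ((Fin 2 → ℝ) × ℝ) × (Fin 2 → ℝ) => f p.2 *
      cexp (2 * Real.pi * I * ((∑ j, p.2 j * p.1.1 j + (∑ j, p.2 j ^ 2) * p.1.2 : ℝ) : ℂ)) :=
    (hf.comp measurable_snd).mul h1
  exact (h.stronglyMeasurable.integral_prod_right').measurable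

/-- the scaling factor -/
noncomputable def r0 : ℝ := -(2 * Real.pi)⁻¹

lemma ext_scale (f : (Fin 2 → ℝ) → ℂ)
    (hf : ∀ x, x ∉ Icc (fun _ : Fin 2 => (-1 : ℝ)) (fun _ => 1) → f x = 0)
    (ξ : (Fin 2 → ℝ) × ℝ) : ext f ξ = Pool.Agent.H728R3.SR.ext f (r0 • ξ) := by
  unfold ext Pool.Agent.H728R3.SR.ext
  rw [← setIntegral_eq_integral_of_forall_compl_eq_zero
    (s := Icc (fun _ : Fin 2 => (-1 : ℝ)) (fun _ => 1))]
  · apply setIntegral_congr_fun measurableSet_Icc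
    intro x _
    simp only
    rw [mul_comm]
    congr 2
    simp only [Fin.sum_univ_two, Prod.smul_fst, Prod.smul_snd, Pi.smul_apply, smul_eq_mul]
    unfold r0
    have hpi : (Real.pi : ℂ) ≠ 0 := by
      exact_mod_cast Real.pi_ne_zero
    push_cast
    field_simp
    ring
  · intro x hx
    rw [hf x hx, mul_zero]

lemma lint_scale (F : (Fin 2 → ℝ) × ℝ → ℝ≥0∞) (hF : Measurable F) :
    ∫⁻ ξ, F (r0 • ξ) =
      ENNReal.ofReal |(r0 ^ Module.finrank ℝ ((Fin 2 → ℝ) × ℝ))⁻¹| * ∫⁻ ξ, F ξ := by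
  have hr : r0 ≠ 0 := by
    unfold r0
    have : 0 < Real.pi := Real.pi_pos
    simp
  have i3 : (volume : Measure ((Fin 2 → ℝ) × ℝ)).IsAddHaarMeasure := by
    rw [Measure.volume_eq_prod]
    infer_instance
  have h1 := Measure.map_addHaar_smul (volume : Measure ((Fin 2 → ℝ) × ℝ)) hr
  rw [← lintegral_map hF (measurable_const_smul r0), h1, lintegral_smul_measure]
  rfl

/-- **The extension conjecture on average over random signs.** For every `q > 3` there is a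
constant `C` such that for all `m ≥ 1` and every finite family of functions `ψ_k` of class
`Strips m`, the conjectured inequality holds for the functions `∑ ε_k ψ_k` on average over all
choices of signs, with the constant `C m^{q/2}`. -/
theorem result (q : ℝ) (hq : 3 < q) :
    ∃ C : ℝ≥0, ∀ m : ℕ, 1 ≤ m → ∀ (N : ℕ) (ψ : Fin N → (Fin 2 → ℝ) → ℂ),
      (∀ k, Strips m (ψ k)) →
      ∑ ε : Fin N → Bool, ∫⁻ ξ, ‖ext (rsum ψ ε) ξ‖ₑ ^ q ≤
        C * (m : ℝ≥0∞) ^ (q / 2) * ∑ ε : Fin N → Bool, ∫⁻ x, ‖rsum ψ ε x‖ₑ ^ q := by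
  obtain ⟨C, hC, H⟩ := rnd_main 1 le_rfl q (by norm_num; linarith)
  set J : ℝ≥0∞ := ENNReal.ofReal |(r0 ^ Module.finrank ℝ ((Fin 2 → ℝ) × ℝ))⁻¹| with hJ
  have hJt : J ≠ ⊤ := ENNReal.ofReal_ne_top
  refine ⟨(J * C).toNNReal, ?_⟩
  rw [ENNReal.coe_toNNReal (ENNReal.mul_ne_top hJt hC)]
  intro m hm N ψ hψ
  have h1 := H m hm N ψ (fun k => strips_boxes (hψ k))
  have hr : ∀ ε : Fin N → Bool, rsum ψ ε =
      fun x => ∑ k, (Pool.Agent.H728R3.SR.sg (ε k) : ℂ) * ψ k x := by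
    intro ε
    funext x
    unfold rsum Pool.Agent.H728R3.SR.sg
    apply Finset.sum_congr rfl
    intro k _
    split_ifs <;> simp
  have h0 : ∀ (ε : Fin N → Bool) x, x ∉ Icc (fun _ : Fin 2 => (-1 : ℝ)) (fun _ => 1) →
      rsum ψ ε x = 0 := by
    intro ε x hx
    unfold rsum
    apply Finset.sum_eq_zero
    intro k _
    rw [strips_zero (hψ k) x hx, mul_zero]
  have hm' : ∀ ε : Fin N → Bool, Measurable (rsum ψ ε) := by
    intro ε
    unfold rsum
    exact Finset.measurable_sum Finset.univ fun k _ => (strips_meas (hψ k)).const_mul _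
  have h2 : ∀ ε : Fin N → Bool, ∫⁻ ξ, ‖ext (rsum ψ ε) ξ‖ₑ ^ q =
      J * ∫⁻ ξ, ‖Pool.Agent.H728R3.SR.ext (rsum ψ ε) ξ‖ₑ ^ q := by
    intro ε
    simp only [ext_scale (rsum ψ ε) (h0 ε)]
    exact lint_scale (fun ξ => ‖Pool.Agent.H728R3.SR.ext (rsum ψ ε) ξ‖ₑ ^ q)
      ((ext_measurable (hm' ε)).enorm.pow_const q)
  calc ∑ ε : Fin N → Bool, ∫⁻ ξ, ‖ext (rsum ψ ε) ξ‖ₑ ^ q
      = J * ∑ ε : Fin N → Bool, ∫⁻ ξ, ‖Pool.Agent.H728R3.SR.ext (rsum ψ ε) ξ‖ₑ ^ q := by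
        rw [Finset.mul_sum]
        exact Finset.sum_congr rfl fun ε _ => h2 ε
    _ ≤ J * (C * (m : ℝ≥0∞) ^ (q / 2) * ∑ ε : Fin N → Bool,
          ∫⁻ x in Icc (fun _ : Fin 2 => (-1 : ℝ)) (fun _ => 1), ‖rsum ψ ε x‖ₑ ^ q) := by
        simp only [hr]
        exact mul_le_mul_right h1 _
    _ ≤ J * (C * (m : ℝ≥0∞) ^ (q / 2) * ∑ ε : Fin N → Bool, ∫⁻ x, ‖rsum ψ ε x‖ₑ ^ q) := by
        gcongr with ε
        exact Measure.restrict_le_self
    _ = _ := by ring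

end Pool.Agent.Results.MP_5ab805_an.RandomStrips
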