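import Mathlib
import Pool.Agent.R247.LC.Para4
import Pool.Agent.R247.LC.Gen4
import Pool.Agent.R247.LC.Poly
set_option autoImplicit false

/-!
# Fourier extension for the paraboloid in `ℝ^3`: densities whose level sets meet rays in few intervals

A planar set `W` has ray count at most `N` if from every point `c` of the plane the rays meet `W`
in unions of intervals whose number is, on average over the directions, at most `N`. All sets
which meet every line in at most `N` intervals are of this kind, for instance the superlevel sets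
of the polynomials of degree `N - 1` on convex sets.

For every `3 < q < 4` (the whole open range of the problem), the inequality of the problem holds,
in the stronger scale invariant form with the norm of `L^(q/(q-2))`, for all densities whose
superlevel sets have ray count at most `N`, with constant `C_q N^((4-q)/q)`; in particular for all
polynomial densities of degree at most `D` on convex sets with constant `C_q (D+1)^((4-q)/q)`.

The proof rests on the restricted weak type inequality at the end point `q = 3`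
(theorem `endpoint` below),

  `|{ξ : |E 1_W (ξ)| > λ}| ≤ 16 π³ N |W| λ^(-3)`

for the sets of ray count at most `N`, and on the Stein-Tomas theorem.
-/

namespace Pool.Agent.Results.MP_5ab805_an.RayCountDensities

open MeasureTheory Set Complex
open scoped ENNReal RealInnerProductSpace

/-- `S ⊆ ℝ` is a union of `n` intervals (bounded or unbounded, possibly empty or degenerate). -/
def Intervals (n : ℕ) (S : Set ℝ) : Prop :=
  ∃ K : Fin n → Set ℝ, (∀ i, Convex ℝ (K i)) ∧ S = ⋃ i, K i

/-- For every point `c` of the plane and almost every direction `θ`, the ray from `c` in the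
direction `(cos θ, sin θ)` meets `W` in a union of `n θ` intervals, where the average of `n` over
all directions is at most `N`. -/
def RayCount (N : ℝ) (W : Set (EuclideanSpace ℝ (Fin 2))) : Prop :=
  ∀ c : EuclideanSpace ℝ (Fin 2), ∃ n : ℝ → ℕ,
    (∫⁻ θ in Ioo (-Real.pi) Real.pi, (n θ : ℝ≥0∞) ≤ ENNReal.ofReal (2 * Real.pi * N)) ∧
    ∀ᵐ θ ∂(volume.restrict (Ioo (-Real.pi) Real.pi)),
      Intervals (n θ) {r : ℝ | 0 < r ∧ c + r • !₂[Real.cos θ, Real.sin θ] ∈ W}

/-- The parametrisation `Φ(x) = (x₁, x₂, x₁² + x₂²)` of the paraboloid. -/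
noncomputable def Phi (x : EuclideanSpace ℝ (Fin 2)) : EuclideanSpace ℝ (Fin 3) :=
  !₂[x 0, x 1, x 0 ^ 2 + x 1 ^ 2]

/-- The extension operator `E f (ξ) = ∫_U e^{-iΦ(x)·ξ} f(x) dx`. -/
noncomputable def ext (U : Set (EuclideanSpace ℝ (Fin 2))) (f : EuclideanSpace ℝ (Fin 2) → ℂ)
    (ξ : EuclideanSpace ℝ (Fin 3)) : ℂ :=
  ∫ x in U, Complex.exp (-(⟪Phi x, ξ⟫ : ℝ) * I) * f x

/-- The superlevel sets on `U` of the positive and negative parts of the real and the imaginary
part of `f` have ray count at most `N`. -/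
def Levels (N : ℝ) (U : Set (EuclideanSpace ℝ (Fin 2))) (f : EuclideanSpace ℝ (Fin 2) → ℂ) :
    Prop :=
  ∀ s : ℝ, 0 < s →
    RayCount N {x | x ∈ U ∧ s < (f x).re} ∧ RayCount N {x | x ∈ U ∧ (f x).re < -s} ∧
    RayCount N {x | x ∈ U ∧ s < (f x).im} ∧ RayCount N {x | x ∈ U ∧ (f x).im < -s}

/-! ### Proofs -/

open Pool.Agent.R247.LC (T k3 indc Sq Weak2 CP CT)

theorem ext_eq {U : Set (EuclideanSpace ℝ (Fin 2))} (hU : MeasurableSet U)
    (f : EuclideanSpace ℝ (Fin 2) → ℂ) : ext U f = T k3 volume (U.indicator f) := by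
  funext ξ
  unfold ext T
  rw [← integral_indicator hU]
  refine integral_congr_ae (Filter.Eventually.of_forall fun x => ?_)
  simp only
  by_cases hx : x ∈ U
  · rw [indicator_of_mem hx, indicator_of_mem hx]; rfl
  · rw [indicator_of_notMem hx, indicator_of_notMem hx, mul_zero]

/-- the class of sets -/
def Cls (N : ℝ) : Set (Set (EuclideanSpace ℝ (Fin 2))) := {W | RayCount N W ∧ W ⊆ Sq}

theorem cls_weak {N : ℝ} (hN : 0 ≤ N) : Weak2 k3 (volume : Measure (EuclideanSpace ℝ (Fin 2)))
    (volume : Measure (EuclideanSpace ℝ (Fin 3))) CP CT N (Cls N) := by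
  intro A hA hAn hfin lam hlam
  exact ⟨Pool.Agent.R247.LC.weak3 (N := N) hN hA.1 hAn hfin hlam,
    Pool.Agent.R247.LC.weak4 hA.2 hAn hlam⟩

theorem ball_Sq {x : EuclideanSpace ℝ (Fin 2)} (hx : x ∈ Metric.ball (0 : EuclideanSpace ℝ (Fin 2))
    (1 / 2)) : x ∈ Sq := by
  intro i
  have h1 : |x i| ≤ ‖x‖ := by
    have := EuclideanSpace.norm_eq x
    rw [this, ← Real.sqrt_sq_eq_abs]
    refine Real.sqrt_le_sqrt ?_
    have h2 := Finset.single_le_sum (f := fun j => ‖x j‖ ^ 2) (fun j _ => by positivity)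
      (Finset.mem_univ i)
    simpa using h2
  have h3 : ‖x‖ < 1 / 2 := by simpa using hx
  have h4 := abs_le.1 (h1.trans h3.le)
  exact ⟨by linarith [h4.1], by linarith [h4.2]⟩

theorem strong {q : ℝ} (hq3 : 3 < q) (hq4 : q < 4) :
    ∃ C : ℝ, 0 < C ∧ ∀ U : Set (EuclideanSpace ℝ (Fin 2)), MeasurableSet U →
      U ⊆ Metric.ball 0 (1 / 2) → ∀ N : ℝ, 0 < N → ∀ f : EuclideanSpace ℝ (Fin 2) → ℂ,
      IntegrableOn f U → Levels N U f →
      eLpNorm (ext U f) (ENNReal.ofReal q) volume ≤ ENNReal.ofReal (C * N ^ ((4 - q) / q)) *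
        eLpNorm f (ENNReal.ofReal (q / (q - 2))) (volume.restrict U) := by
  have hCP : (0 : ℝ) ≤ CP := by
    unfold Pool.Agent.R247.LC.CP
    have := Real.pi_pos
    positivity
  obtain ⟨C, hC, H⟩ := Pool.Agent.R247.LC.main_complex2 hq3 hq4 hCP
    Pool.Agent.R247.LC.CT_nonneg
  refine ⟨C.toReal + 1, by positivity, ?_⟩
  intro U hU hUb N hN0 f hf hlev
  have h1 := H (X := EuclideanSpace ℝ (Fin 2)) (Z := EuclideanSpace ℝ (Fin 3)) (k := k3)
    (μ := volume) (ν := volume) Pool.Agent.R247.LC.k3_ker hN0 (cls_weak hN0.le) (U.indicator f)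
    ((integrable_indicator_iff hU).2 hf) (by
      intro s hs
      obtain ⟨a1, a2, a3, a4⟩ := hlev s hs
      have key : ∀ g : ℂ → Prop, ¬ g 0 → RayCount N {x | x ∈ U ∧ g (f x)} →
          {x | g (U.indicator f x)} ∈ Cls N := by
        intro g hg hl
        have : {x | g (U.indicator f x)} = {x | x ∈ U ∧ g (f x)} := by
          ext x
          simp only [mem_ofPred_eq]
          by_cases hx : x ∈ U
          · rw [indicator_of_mem hx]
            simp [hx]
          · rw [indicator_of_notMem hx]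
            simp [hx, hg]
        rw [this]
        exact ⟨hl, fun x hx => ball_Sq (hUb hx.1)⟩
      refine ⟨key (fun w => s < w.re) (by simp [hs.le]) a1,
        key (fun w => w.re < -s) (by simp [hs.le]) a2,
        key (fun w => s < w.im) (by simp [hs.le]) a3,
        key (fun w => w.im < -s) (by simp [hs.le]) a4⟩)
  rw [ext_eq hU]
  refine h1.trans ?_
  rw [eLpNorm_indicator_eq_eLpNorm_restrict hU]
  refine mul_le_mul_left ?_ _
  rw [ENNReal.ofReal_mul (by positivity)]
  refine mul_le_mul_left ?_ _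
  rw [ENNReal.ofReal_add ENNReal.toReal_nonneg zero_le_one, ENNReal.ofReal_toReal hC]
  exact le_self_add

theorem vol_ball : volume (Metric.ball (0 : EuclideanSpace ℝ (Fin 2)) (1 / 2)) ≤ 1 := by
  rw [EuclideanSpace.volume_ball_fin_two]
  have h1 := Real.pi_le_four
  rw [← ENNReal.ofReal_pow (by norm_num), ← ENNReal.ofReal_mul (by norm_num),
    ← ENNReal.ofReal_one]
  refine ENNReal.ofReal_le_ofReal ?_
  linarith

theorem holder {q : ℝ} (hq3 : 3 < q) {U : Set (EuclideanSpace ℝ (Fin 2))}
    (hUb : U ⊆ Metric.ball 0 (1 / 2)) {f : EuclideanSpace ℝ (Fin 2) → ℂ}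
    (hf : AEStronglyMeasurable f (volume.restrict U)) :
    eLpNorm f (ENNReal.ofReal (q / (q - 2))) (volume.restrict U) ≤
      eLpNorm f (ENNReal.ofReal q) (volume.restrict U) := by
  have hvU : (volume.restrict U) univ ≤ 1 := by
    rw [Measure.restrict_apply_univ]
    exact (measure_mono hUb).trans vol_ball
  have hpq : q / (q - 2) ≤ q := by
    rw [div_le_iff₀ (by linarith)]
    nlinarith
  have h1 := eLpNorm_le_eLpNorm_mul_rpow_measure_univ (ENNReal.ofReal_le_ofReal hpq) hf
  refine h1.trans ?_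
  have h2 : (volume.restrict U) univ ^
      (1 / (ENNReal.ofReal (q / (q - 2))).toReal - 1 / (ENNReal.ofReal q).toReal) ≤ 1 := by
    refine ENNReal.rpow_le_one hvU ?_
    have hq0 : 0 ≤ q := by linarith
    have hp0 : 0 ≤ q / (q - 2) := div_nonneg hq0 (by linarith)
    rw [ENNReal.toReal_ofReal hp0, ENNReal.toReal_ofReal hq0, sub_nonneg]
    exact one_div_le_one_div_of_le (div_pos (by linarith) (by linarith)) hpq
  calc _ ≤ eLpNorm f (ENNReal.ofReal q) (volume.restrict U) * 1 := by gcongr
    _ = _ := mul_one _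

theorem levels_poly {D : ℕ} {P Q : MvPolynomial (Fin 2) ℝ} (hP : P.totalDegree ≤ D)
    (hQ : Q.totalDegree ≤ D) {U : Set (EuclideanSpace ℝ (Fin 2))} (hU : Convex ℝ U) :
    Levels ((D : ℝ) + 1) U (fun x => (MvPolynomial.eval (fun i => x i) P : ℝ) +
      (MvPolynomial.eval (fun i => x i) Q : ℝ) * I) := by
  intro s _
  rw [show (D : ℝ) + 1 = ((D + 1 : ℕ) : ℝ) by push_cast; rfl]
  have hneg : ∀ R : MvPolynomial (Fin 2) ℝ, (-R).totalDegree = R.totalDegree :=
    fun R => MvPolynomial.totalDegree_neg R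
  have a1 := (Pool.Agent.R247.LC.poly_line P hP hU s).ray
  have a2 := (Pool.Agent.R247.LC.poly_line (-P) ((hneg P).le.trans hP) hU s).ray
  have a3 := (Pool.Agent.R247.LC.poly_line Q hQ hU s).ray
  have a4 := (Pool.Agent.R247.LC.poly_line (-Q) ((hneg Q).le.trans hQ) hU s).ray
  refine ⟨?_, ?_, ?_, ?_⟩
  · simpa using! a1
  · have e : {x : EuclideanSpace ℝ (Fin 2) | x ∈ U ∧
        (((MvPolynomial.eval (fun i => x i) P : ℝ) : ℂ) +
        (MvPolynomial.eval (fun i => x i) Q : ℝ) * I).re < -s} =
        {x | x ∈ U ∧ s < MvPolynomial.eval (fun i => x i) (-P)} := by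
      ext x
      simp [lt_neg]
    rw [e]
    exact a2
  · simpa using! a3
  · have e : {x : EuclideanSpace ℝ (Fin 2) | x ∈ U ∧
        (((MvPolynomial.eval (fun i => x i) P : ℝ) : ℂ) +
        (MvPolynomial.eval (fun i => x i) Q : ℝ) * I).im < -s} =
        {x | x ∈ U ∧ s < MvPolynomial.eval (fun i => x i) (-Q)} := by
      ext x
      simp [lt_neg]
    rw [e]
    exact a4

/-- Restricted weak type at the end point `q = 3`, for the indicator functions of all sets
`W ⊆ ℝ²` of finite measure and ray count at most `N`. -/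
theorem endpoint (N : ℝ) (W : Set (EuclideanSpace ℝ (Fin 2))) (hN : 0 ≤ N) (hW : RayCount N W)
    (hWm : MeasurableSet W) (hfin : volume W ≠ ∞) (lam : ℝ) (hlam : 0 < lam) :
    volume {ξ : EuclideanSpace ℝ (Fin 3) | lam < ‖ext W (fun _ => 1) ξ‖} ≤
      ENNReal.ofReal (16 * Real.pi ^ 3 * N / lam ^ 3) * volume W := by
  have h1 := Pool.Agent.R247.LC.weak3 (N := N) (W := W) hN hW hWm.nullMeasurableSet hfin hlam
  have e1 : ext W (fun _ => 1) = T k3 volume (indc W) := by
    rw [ext_eq hWm]
    rfl
  rw [e1]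
  refine h1.trans (le_of_eq ?_)
  congr 2
  rw [Real.rpow_neg hlam.le, show (3 : ℝ) = ((3 : ℕ) : ℝ) by norm_num, Real.rpow_natCast]
  unfold Pool.Agent.R247.LC.CP
  ring

/-- **Main theorem.** For `3 < q < 4` the extension operator maps into `L^q(ℝ³)`, with norm at
most `C_q N^((4-q)/q)` times the norm in `L^(q/(q-2))(U)`, hence also times the norm in `L^q(U)`,
on the densities whose superlevel sets have ray count at most `N`. In particular this holds for
all complex polynomials `P + iQ` of degree at most `D` on a convex set `U`, with `N = D + 1`. -/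
theorem result (q : ℝ) (hq3 : 3 < q) (hq4 : q < 4) :
    ∃ C : ℝ, 0 < C ∧
      ∀ U : Set (EuclideanSpace ℝ (Fin 2)), MeasurableSet U → U ⊆ Metric.ball 0 (1 / 2) →
      (∀ N : ℝ, 0 < N → ∀ f : EuclideanSpace ℝ (Fin 2) → ℂ,
        MemLp f (ENNReal.ofReal q) (volume.restrict U) → Levels N U f →
        eLpNorm (ext U f) (ENNReal.ofReal q) volume ≤ ENNReal.ofReal (C * N ^ ((4 - q) / q)) *
          eLpNorm f (ENNReal.ofReal (q / (q - 2))) (volume.restrict U) ∧
        eLpNorm (ext U f) (ENNReal.ofReal q) volume ≤ ENNReal.ofReal (C * N ^ ((4 - q) / q)) *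
          eLpNorm f (ENNReal.ofReal q) (volume.restrict U)) ∧
      (Convex ℝ U → ∀ (D : ℕ) (P Q : MvPolynomial (Fin 2) ℝ), P.totalDegree ≤ D →
        Q.totalDegree ≤ D →
        eLpNorm (ext U (fun x => (MvPolynomial.eval (fun i => x i) P : ℝ) +
          (MvPolynomial.eval (fun i => x i) Q : ℝ) * I)) (ENNReal.ofReal q) volume ≤
        ENNReal.ofReal (C * (D + 1) ^ ((4 - q) / q)) *
          eLpNorm (fun x => ((MvPolynomial.eval (fun i => x i) P : ℝ) : ℂ) +
            (MvPolynomial.eval (fun i => x i) Q : ℝ) * I)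
            (ENNReal.ofReal (q / (q - 2))) (volume.restrict U)) := by
  obtain ⟨C, hC, H⟩ := strong hq3 hq4
  refine ⟨C, hC, fun U hU hUb => ⟨fun N hN f hf hlev => ?_, fun hconv D P Q hP hQ => ?_⟩⟩
  · have hq1 : (1 : ℝ≥0∞) ≤ ENNReal.ofReal q := by
      rw [← ENNReal.ofReal_one]
      exact ENNReal.ofReal_le_ofReal (by linarith)
    have : IsFiniteMeasure (volume.restrict U) := ⟨by
      rw [Measure.restrict_apply_univ]
      exact lt_of_le_of_lt ((measure_mono hUb).trans vol_ball) ENNReal.one_lt_top⟩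
    have hi : IntegrableOn f U := hf.integrable hq1
    have h1 := H U hU hUb N hN f hi hlev
    exact ⟨h1, h1.trans (mul_le_mul_right (holder hq3 hUb hf.1) _)⟩
  · have hcont : Continuous (fun x : EuclideanSpace ℝ (Fin 2) =>
        (((MvPolynomial.eval (fun i => x i) P : ℝ) : ℂ) +
          (MvPolynomial.eval (fun i => x i) Q : ℝ) * I)) := by
      have h0 : Continuous fun x : EuclideanSpace ℝ (Fin 2) => fun i => x i := by fun_prop
      have h1 := (MvPolynomial.continuous_eval P).comp h0
      have h2 := (MvPolynomial.continuous_eval Q).comp h0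
      exact (Complex.continuous_ofReal.comp h1).add
        ((Complex.continuous_ofReal.comp h2).mul continuous_const)
    have hi : IntegrableOn (fun x : EuclideanSpace ℝ (Fin 2) =>
        (((MvPolynomial.eval (fun i => x i) P : ℝ) : ℂ) +
          (MvPolynomial.eval (fun i => x i) Q : ℝ) * I)) U := by
      refine (hcont.continuousOn.integrableOn_compact
        (isCompact_closedBall (0 : EuclideanSpace ℝ (Fin 2)) (1 / 2))).mono_set ?_
      exact hUb.trans Metric.ball_subset_closedBall
    exact H U hU hUb ((D : ℝ) + 1) (by positivity) _ hi (levels_poly hP hQ hconv)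

end Pool.Agent.Results.MP_5ab805_an.RayCountDensities
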