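import Mathlib
import Pool.Agent.R245.PB.Gal
set_option autoImplicit false

/-!
# Fourier extension for the paraboloid in `ℝ^3`: functions of bounded variation along the rays

Let `3 < q < 4` (the whole open range of the problem) and let `f` be a measurable function on the
plane which vanishes outside the disc of radius `R` about a point `a`. Let `v(x)` be any measurable
majorant of the total variation of `f` along the part beyond `x` of the ray from `a` through `x`
(so `|f| ≤ v`). Then

  `‖E f‖_{L^q(ℝ^3)} ≤ C(q) R^(2-6/q) ‖v‖_{L^q(ℝ^2)}`.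

Nothing is assumed about the dependence of `f` on the direction of the ray, not even continuity or
boundedness. If `f ≥ 0` is nonincreasing along the rays from `a` (for instance the indicator
function of any set which is star-shaped about `a`) then `v = f`, and this is exactly the inequality
of the problem, `‖E f‖_q ≤ C ‖f‖_q`.
-/

namespace Pool.Agent.Results.MP_5ab805_an.RayVariation

open MeasureTheory Set Complex
open scoped ENNReal RealInnerProductSpace

/-- The parametrisation `Φ(x) = (x₁, x₂, x₁² + x₂²)` of the paraboloid. -/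
noncomputable def Phi (x : EuclideanSpace ℝ (Fin 2)) : EuclideanSpace ℝ (Fin 3) :=
  !₂[x 0, x 1, x 0 ^ 2 + x 1 ^ 2]

/-- The extension operator `E f (ξ) = ∫ e^{-iΦ(x)·ξ} f(x) dx` for functions on the plane
(functions on `U` are extended by zero). -/
noncomputable def ext (f : EuclideanSpace ℝ (Fin 2) → ℂ) (ξ : EuclideanSpace ℝ (Fin 3)) : ℂ :=
  ∫ x, cexp (-(I * ((⟪Phi x, ξ⟫ : ℝ) : ℂ))) * f x

/-- **The extension inequality for functions of bounded variation along the rays from a point.** -/
theorem result (q : ℝ) (hq3 : 3 < q) (hq4 : q < 4) :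
    ∃ C : ℝ, 0 < C ∧
      (∀ (a : EuclideanSpace ℝ (Fin 2)) (R : ℝ) (f : EuclideanSpace ℝ (Fin 2) → ℂ)
        (v : EuclideanSpace ℝ (Fin 2) → ℝ≥0∞), 0 < R → Measurable f → Measurable v →
        (∀ x, R < ‖x - a‖ → f x = 0) →
        (∀ x, eVariationOn (fun s : ℝ => f (a + s • (x - a))) (Ici 1) ≤ v x) →
        ∫⁻ ξ, ‖ext f ξ‖ₑ ^ q ≤ ENNReal.ofReal (C * R ^ (2 * q - 6)) * ∫⁻ x, v x ^ q) ∧
      (∀ (a : EuclideanSpace ℝ (Fin 2)) (R : ℝ) (f : EuclideanSpace ℝ (Fin 2) → ℝ), 0 < R →
        Measurable f → (∀ x, 0 ≤ f x) → (∀ x, R < ‖x - a‖ → f x = 0) →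
        (∀ x, ∀ s : ℝ, 1 ≤ s → f (a + s • (x - a)) ≤ f x) →
        ∫⁻ ξ, ‖ext (fun x => (f x : ℂ)) ξ‖ₑ ^ q ≤
          ENNReal.ofReal (C * R ^ (2 * q - 6)) * ∫⁻ x, ‖f x‖ₑ ^ q) := by
  obtain ⟨C, hC, h⟩ := Pool.Agent.R245.PB.mainP hq3 hq4
  refine ⟨C, hC, fun a R f v hR0 hf hvm hR hv => h a R f v hR0 hf hvm hR hv, ?_⟩
  intro a R f hR0 hf hf0 hR hmono
  have h1 := h a R (fun x => (f x : ℂ)) (fun x => ENNReal.ofReal (f x)) hR0
    (Complex.measurable_ofReal.comp hf) hf.ennreal_ofReal (fun x hx => by rw [hR x hx]; simp) (by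
      intro x
      have hv := Pool.Agent.R245.PB.var_ray (w := fun s : ℝ => f (a + s • (x - a)))
        (fun s _ => hf0 _) (fun s t hs hst => by
          have hs0 : 0 < s := by linarith
          have h2 := hmono (a + s • (x - a)) (t / s) (by rw [le_div_iff₀ hs0]; linarith)
          rwa [add_sub_cancel_left, smul_smul, div_mul_cancel₀ _ hs0.ne'] at h2)
      simp only [one_smul, add_sub_cancel] at hv
      exact hv)
  refine h1.trans (le_of_eq ?_)
  congr 2
  ext x
  rw [← ofReal_norm, Real.norm_eq_abs, abs_of_nonneg (hf0 x)]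

end Pool.Agent.Results.MP_5ab805_an.RayVariation
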